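import Pool.Agent.Work.MP_b29d7f_ns.Interface3

/-! Block CHK: Chebyshev's upper bound for number fields. -/

set_option autoImplicit false

open Finset NumberField IsDedekindDomain

namespace Pool.NS

open Pool.Agent.Work.MP_b29d7f_nt.Ded

namespace CHK_

variable {K : Type} [Field K] [NumberField K]

lemma Nm_isPrimePow {p : Ideal (𝓞 K)} (hp : p.IsPrime) (hp0 : p ≠ ⊥) : IsPrimePow (Nm p) := by
  have hmax := hp.isMaximal hp0
  let _ := Ideal.Quotient.field p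
  have h1 : Finite (𝓞 K ⧸ p) := Ring.HasFiniteQuotients.finiteQuotient hp0
  have h2 := Fintype.ofFinite (𝓞 K ⧸ p)
  have h3 := FiniteField.isPrimePow_card (𝓞 K ⧸ p)
  unfold Nm
  rw [Nat.card_eq_fintype_card]
  exact h3

omit [NumberField K] in
lemma Nm_mem (I : Ideal (𝓞 K)) : (Nm I : 𝓞 K) ∈ I := by
  rw [← Ideal.Quotient.eq_zero_iff_mem, map_natCast]
  have h : (Nat.card (𝓞 K ⧸ I)) • (1 : 𝓞 K ⧸ I) = 0 := card_nsmul_eq_zero'
  rw [nsmul_one] at h
  exact h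

lemma nrm_natCast (l : ℕ) : nrm (l : 𝓞 K) = l ^ Module.finrank ℚ K := by
  have h1 : nrm (l : 𝓞 K) = (Algebra.norm ℤ (l : 𝓞 K)).natAbs := by
    rw [nrm_eq, ← Ideal.absNorm_span_singleton, Ideal.absNorm_apply, Submodule.cardQuot_apply]
    rfl
  have h2 : (l : 𝓞 K) = algebraMap ℤ (𝓞 K) (l : ℤ) := by simp
  rw [h1, h2, Algebra.norm_algebraMap, RingOfIntegers.rank]
  simp [Int.natAbs_pow]

open scoped Classical in
lemma group (hF : Stmt_FACT) (X q : ℕ) :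
    ∑ I ∈ (ids (𝓞 K) X).filter (fun I => Nm I = q), Lam I ≤
      Module.finrank ℚ K * ArithmeticFunction.vonMangoldt q := by
  obtain ⟨F1, F2, F3, F4⟩ := hF (𝓞 K)
  set S := ((ids (𝓞 K) X).filter (fun I => Nm I = q)).filter (fun I => Lam I ≠ 0) with hS
  have h1 : ∑ I ∈ (ids (𝓞 K) X).filter (fun I => Nm I = q), Lam I = ∑ I ∈ S, Lam I := by
    rw [hS, Finset.sum_filter_ne_zero]
  rw [h1]
  rcases S.eq_empty_or_nonempty with hS0 | hSn
  · rw [hS0, Finset.sum_empty]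
    exact mul_nonneg (Nat.cast_nonneg _) ArithmeticFunction.vonMangoldt_nonneg
  have hc : ∀ I ∈ S, ∃ p : Ideal (𝓞 K), p.IsPrime ∧ p ≠ ⊥ ∧ Nm I = q ∧ ∃ i : ℕ, 1 ≤ i ∧ I = p ^ i := by
    intro I hI
    rw [hS, Finset.mem_filter, Finset.mem_filter] at hI
    obtain ⟨p, hp, hp0, hi⟩ := F3 I hI.2
    exact ⟨p, hp, hp0, hI.1.2, hi⟩
  obtain ⟨I0, hI0⟩ := hSn
  obtain ⟨p0, hp0, hp00, hq0, i0, hi0, hIp0⟩ := hc I0 hI0
  have hqp : IsPrimePow q := by
    rw [← hq0, hIp0, Nm_pow]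
    exact (Nm_isPrimePow hp0 hp00).pow (by omega)
  have hΛ : ArithmeticFunction.vonMangoldt q = Real.log q.minFac := by
    rw [ArithmeticFunction.vonMangoldt_apply, if_pos hqp]
  set l := q.minFac with hl
  have hlp : l.Prime := Nat.minFac_prime (by rintro rfl; exact not_isPrimePow_one hqp)
  obtain ⟨k, hk⟩ : ∃ k : ℕ, q = l ^ k := ⟨_, hqp.minFac_pow_factorization_eq.symm⟩
  have hlm : ∀ p : Ideal (𝓞 K), p.IsPrime → ∀ i : ℕ, 1 ≤ i → Nm (p ^ i) = q → (l : 𝓞 K) ∈ p := by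
    intro p hp i h1 hi
    have h3 := Nm_mem (p ^ i)
    rw [hi, hk] at h3
    push_cast at h3
    have h4 : ((l : 𝓞 K)) ^ k ∈ p := Ideal.pow_le_self (by omega) h3
    exact hp.mem_of_pow_mem k h4
  choose! f f1 f2 f3 e f4 f5 using hc
  have hinj : Set.InjOn f S := by
    intro I hI J hJ hIJ
    have h1 := f3 I hI
    have h2 := f3 J hJ
    have h3 := one_lt_Nm (f1 I hI) (f2 I hI)
    rw [f5 I hI, Nm_pow] at h1
    rw [f5 J hJ, Nm_pow, ← hIJ, ← h1] at h2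
    have h4 := Nat.pow_right_injective h3 h2
    rw [f5 I hI, f5 J hJ, ← hIJ, h4]
  have hLam : ∀ I ∈ S, Lam I = Lam (f I) := by
    intro I hI
    have h1 : Lam I = Real.log (Nm (f I)) := by
      conv_lhs => rw [f5 I hI]
      exact F2 (f I) (f1 I hI) (f2 I hI) (e I) (f4 I hI)
    have h2 := F2 (f I) (f1 I hI) (f2 I hI) 1 le_rfl
    rw [pow_one] at h2
    rw [h1, h2]
  have hl0 : (l : 𝓞 K) ≠ 0 := by exact_mod_cast hlp.ne_zero
  have h5 := F4 (l : 𝓞 K) (nrm (l : 𝓞 K)) hl0 le_rfl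
  rw [nrm_natCast] at h5
  rw [hΛ]
  calc ∑ I ∈ S, Lam I = ∑ I ∈ S, Lam (f I) := Finset.sum_congr rfl hLam
    _ = ∑ P ∈ S.image f, Lam P := (Finset.sum_image hinj).symm
    _ ≤ ∑ I ∈ (ids (𝓞 K) (l ^ Module.finrank ℚ K)).filter (fun I => (l : 𝓞 K) ∈ I), Lam I := by
        apply Finset.sum_le_sum_of_subset_of_nonneg
        · intro P hP
          rw [Finset.mem_image] at hP
          obtain ⟨I, hI, rfl⟩ := hP
          have h6 : (l : 𝓞 K) ∈ f I := by
            apply hlm (f I) (f1 I hI) (e I) (f4 I hI)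
            rw [← f5 I hI]; exact f3 I hI
          rw [Finset.mem_filter, mem_ids]
          refine ⟨⟨f2 I hI, ?_⟩, h6⟩
          rw [← nrm_natCast]
          exact Nm_le_nrm h6 hl0
        · intro P _ _
          exact F1 P
    _ = Real.log ((l ^ Module.finrank ℚ K : ℕ) : ℝ) := h5.symm
    _ = Module.finrank ℚ K * Real.log l := by
        push_cast
        rw [Real.log_pow]

end CHK_

open CHK_ in
theorem stmt_CHK (hF : Stmt_FACT) : Stmt_CHK := by
  classical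
  intro K _ _
  refine ⟨Module.finrank ℚ K * (Real.log 4 + 4), fun X => ?_⟩
  have h1 : ∑ I ∈ ids (𝓞 K) X, Lam I =
      ∑ q ∈ Ioc 0 X, ∑ I ∈ (ids (𝓞 K) X).filter (fun I => Nm I = q), Lam I := by
    symm
    apply Finset.sum_fiberwise_of_maps_to
    intro I hI
    rw [mem_ids] at hI
    rw [Finset.mem_Ioc]
    exact ⟨Nm_pos hI.1, hI.2⟩
  rw [h1]
  calc ∑ q ∈ Ioc 0 X, ∑ I ∈ (ids (𝓞 K) X).filter (fun I => Nm I = q), Lam I
      ≤ ∑ q ∈ Ioc 0 X, (Module.finrank ℚ K : ℝ) * ArithmeticFunction.vonMangoldt q :=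
        Finset.sum_le_sum fun q _ => group hF X q
    _ = Module.finrank ℚ K * Chebyshev.psi X := by
        rw [← Finset.mul_sum, Chebyshev.psi, Nat.floor_natCast]
    _ ≤ Module.finrank ℚ K * ((Real.log 4 + 4) * X) :=
        mul_le_mul_of_nonneg_left (Chebyshev.psi_le_const_mul_self (Nat.cast_nonneg X))
          (Nat.cast_nonneg _)
    _ = Module.finrank ℚ K * (Real.log 4 + 4) * X := by ring

end Pool.NS
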