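import Pool.Agent.Work.MP_b29d7f_ns_helper18.Loc

/-! Block GEO2: the product formula. -/

set_option autoImplicit false

open Finset NumberField IsDedekindDomain

namespace Pool.NS

open Pool.Agent.Work.MP_b29d7f_nt.Ded

namespace GEO2_

open scoped Classical in
/-- exponent of `t` in `I` -/
noncomputable def cnt {A : Type} [CommRing A] [IsDedekindDomain A] (t : HeightOneSpectrum A)
    (I : Ideal A) : ℕ := (Associates.mk t.asIdeal).count (Associates.mk I).factors

section
variable {A : Type} [CommRing A] [IsDedekindDomain A]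

lemma cnt_mul (t : HeightOneSpectrum A) {I J : Ideal A} (hI : I ≠ ⊥) (hJ : J ≠ ⊥) :
    cnt t (I * J) = cnt t I + cnt t J := by
  classical
  unfold cnt
  rw [← Associates.mk_mul_mk]
  exact Associates.count_mul (Associates.mk_ne_zero.mpr hI) (Associates.mk_ne_zero.mpr hJ)
    t.associates_irreducible

lemma cnt_top (t : HeightOneSpectrum A) : cnt t (⊤ : Ideal A) = 0 := by
  have h := cnt_mul t (I := ⊤) (J := ⊤) (by simp) (by simp)
  rw [Ideal.top_mul] at h
  omega

lemma cnt_self (t : HeightOneSpectrum A) : cnt t t.asIdeal = 1 := by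
  classical
  unfold cnt
  exact Associates.count_self t.associates_irreducible

lemma cnt_ne (t : HeightOneSpectrum A) {p : Ideal A} (hp : p.IsPrime) (hp0 : p ≠ ⊥)
    (hne : t.asIdeal ≠ p) : cnt t p = 0 := by
  classical
  unfold cnt
  have h := (⟨p, hp, hp0⟩ : HeightOneSpectrum A).associates_irreducible
  apply Associates.count_eq_zero_of_ne t.associates_irreducible h
  intro h2
  rw [Associates.mk_eq_mk_iff_associated, associated_iff_eq] at h2
  exact hne h2

end

section
variable {K : Type} [Field K] [NumberField K] (g : 𝓞 K) (R : Type) [CommRing R]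
    [Algebra (𝓞 K) R]

lemma Nm_pos' {I : Ideal (𝓞 K)} (hI : I ≠ ⊥) : 0 < Nm I := Nm_pos hI

/-- the key formula -/
lemma key [IsDedekindDomain R] [Ring.HasFiniteQuotients R] [Infinite R]
    [IsLocalization.Away g R] (hg : g ≠ 0) [Fintype (TT K g)] (I : Ideal (𝓞 K)) (hI : I ≠ ⊥) :
    Real.log (Nm (I.map (algebraMap (𝓞 K) R))) +
      ∑ t : TT K g, Real.log (Nm t.1.asIdeal) * (cnt t.1 I : ℝ) = Real.log (Nm I) := by
  classical
  revert hI
  refine UniqueFactorizationMonoid.induction_on_prime (P := fun I : Ideal (𝓞 K) => I ≠ ⊥ →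
    Real.log (Nm (I.map (algebraMap (𝓞 K) R))) +
      ∑ t : TT K g, Real.log (Nm t.1.asIdeal) * (cnt t.1 I : ℝ) = Real.log (Nm I)) I ?_ ?_ ?_
  · intro h
    exact absurd rfl h
  · intro J hJ _
    rw [Ideal.isUnit_iff] at hJ
    subst hJ
    have h1 : (⊤ : Ideal (𝓞 K)).map (algebraMap (𝓞 K) R) = ⊤ := Ideal.map_top _
    rw [h1, Nm_top, Nm_top, Nat.cast_one, Real.log_one, zero_add]
    apply Finset.sum_eq_zero
    intro t _
    rw [cnt_top]; simp
  · intro J p hJ hp ih _
    have ih' := ih hJ
    have hp0 : p ≠ ⊥ := hp.ne_zero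
    have hpp : p.IsPrime := Ideal.isPrime_of_prime hp
    have hJm : J.map (algebraMap (𝓞 K) R) ≠ ⊥ := Loc_.map_ne_bot g R hg hJ
    have hpm : p.map (algebraMap (𝓞 K) R) ≠ ⊥ := Loc_.map_ne_bot g R hg hp0
    have hc : ∀ t : TT K g, (cnt t.1 (p * J) : ℝ) = cnt t.1 p + cnt t.1 J := by
      intro t
      rw [cnt_mul t.1 hp0 hJ]; push_cast; rfl
    have e1 : Real.log (Nm ((p * J).map (algebraMap (𝓞 K) R))) =
        Real.log (Nm (p.map (algebraMap (𝓞 K) R))) +
          Real.log (Nm (J.map (algebraMap (𝓞 K) R))) := by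
      rw [Ideal.map_mul, Nm_mul, Nat.cast_mul, Real.log_mul]
      · exact_mod_cast (Nm_pos hpm).ne'
      · exact_mod_cast (Nm_pos hJm).ne'
    have e2 : Real.log (Nm (p * J)) = Real.log (Nm p) + Real.log (Nm J) := by
      rw [Nm_mul, Nat.cast_mul, Real.log_mul]
      · exact_mod_cast (Nm_pos hp0).ne'
      · exact_mod_cast (Nm_pos hJ).ne'
    have e3 : ∑ t : TT K g, Real.log (Nm t.1.asIdeal) * (cnt t.1 (p * J) : ℝ) =
        ∑ t : TT K g, Real.log (Nm t.1.asIdeal) * (cnt t.1 p : ℝ) +
          ∑ t : TT K g, Real.log (Nm t.1.asIdeal) * (cnt t.1 J : ℝ) := by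
      rw [← Finset.sum_add_distrib]
      refine Finset.sum_congr rfl fun t _ => ?_
      rw [hc]; ring
    have e4 : Real.log (Nm (p.map (algebraMap (𝓞 K) R))) +
        ∑ t : TT K g, Real.log (Nm t.1.asIdeal) * (cnt t.1 p : ℝ) = Real.log (Nm p) := by
      by_cases hgp : g ∈ p
      · rw [Loc_.map_eq_top g R hgp, Nm_top, Nat.cast_one, Real.log_one, zero_add]
        set t0 : TT K g := ⟨⟨p, hpp, hp0⟩, hgp⟩ with ht0
        rw [Finset.sum_eq_single t0]
        · have h1 : cnt t0.1 p = 1 := cnt_self t0.1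
          rw [h1]; simp [ht0]
        · intro t _ ht
          have h1 : t.1.asIdeal ≠ p := by
            intro h
            apply ht
            apply Subtype.ext
            exact HeightOneSpectrum.ext h
          rw [cnt_ne t.1 hpp hp0 h1]; simp
        · intro h; exact absurd (Finset.mem_univ _) h
      · rw [Loc_.Nm_map g R hpp hp0 hgp]
        have h1 : ∑ t : TT K g, Real.log (Nm t.1.asIdeal) * (cnt t.1 p : ℝ) = 0 := by
          apply Finset.sum_eq_zero
          intro t _
          have h2 : t.1.asIdeal ≠ p := by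
            intro h
            exact hgp (h ▸ t.2)
          rw [cnt_ne t.1 hpp hp0 h2]; simp
        rw [h1, add_zero]
    rw [e1, e2, e3]
    linarith

end

section
variable {K : Type} [Field K] [NumberField K]

/-- logarithm of the absolute value of the norm -/
lemma log_norm (y : 𝓞 K) (hy : y ≠ 0) :
    ∑ w : InfinitePlace K, (w.mult : ℝ) * Real.log (w (y : K)) =
      Real.log (Nm (Ideal.span {y})) := by
  have hyK : (y : K) ≠ 0 := by exact_mod_cast hy
  have h1 : Real.log (∏ w : InfinitePlace K, w (y : K) ^ w.mult) =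
      ∑ w : InfinitePlace K, (w.mult : ℝ) * Real.log (w (y : K)) := by
    rw [Real.log_prod]
    · exact Finset.sum_congr rfl fun w _ => by rw [Real.log_pow]
    · intro w _
      exact pow_ne_zero _ (by rw [Ne, map_eq_zero]; exact hyK)
  rw [← h1, InfinitePlace.prod_eq_abs_norm]
  have h2 : (Nm (Ideal.span {y}) : ℕ) = (Algebra.norm ℤ y).natAbs := by
    rw [← Ideal.absNorm_span_singleton, Ideal.absNorm_apply, Submodule.cardQuot_apply]
    rfl
  have h3 : (Algebra.norm ℚ (y : K)) = ((Algebra.norm ℤ y : ℤ) : ℚ) := (Algebra.coe_norm_int y).symm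
  rw [h2, h3]
  congr 1
  push_cast
  rw [Nat.cast_natAbs]
  push_cast
  rfl

/-- the function in question -/
noncomputable def L (g : 𝓞 K) [Fintype (TT K g)] (z : K) : ℝ :=
  ∑ w : InfinitePlace K, (w.mult : ℝ) * Real.log (w z) +
    ∑ t : TT K g, Real.log (Nm t.1.asIdeal) * ((WithZero.log (t.1.valuation K z) : ℤ) : ℝ)

lemma L_mul (g : 𝓞 K) [Fintype (TT K g)] {z z' : K} (hz : z ≠ 0) (hz' : z' ≠ 0) :
    L g (z * z') = L g z + L g z' := by
  unfold L
  have h1 : ∑ w : InfinitePlace K, (w.mult : ℝ) * Real.log (w (z * z')) =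
      ∑ w : InfinitePlace K, (w.mult : ℝ) * Real.log (w z) +
      ∑ w : InfinitePlace K, (w.mult : ℝ) * Real.log (w z') := by
    rw [← Finset.sum_add_distrib]
    refine Finset.sum_congr rfl fun w _ => ?_
    rw [map_mul, Real.log_mul]
    · ring
    · rw [Ne, map_eq_zero]; exact hz
    · rw [Ne, map_eq_zero]; exact hz'
  have h2 : ∑ t : TT K g, Real.log (Nm t.1.asIdeal) *
        ((WithZero.log (t.1.valuation K (z * z')) : ℤ) : ℝ) =
      ∑ t : TT K g, Real.log (Nm t.1.asIdeal) * ((WithZero.log (t.1.valuation K z) : ℤ) : ℝ) +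
      ∑ t : TT K g, Real.log (Nm t.1.asIdeal) * ((WithZero.log (t.1.valuation K z') : ℤ) : ℝ) := by
    rw [← Finset.sum_add_distrib]
    refine Finset.sum_congr rfl fun t _ => ?_
    rw [map_mul, WithZero.log_mul]
    · push_cast; ring
    · rw [Ne, map_eq_zero]; exact hz
    · rw [Ne, map_eq_zero]; exact hz'
  rw [h1, h2]; ring

lemma L_int (g : 𝓞 K) (hg : g ≠ 0) [Fintype (TT K g)] (R : Type) [CommRing R]
    [Algebra (𝓞 K) R] [IsDedekindDomain R] [Ring.HasFiniteQuotients R] [Infinite R]
    [IsLocalization.Away g R] (y : 𝓞 K) (hy : y ≠ 0) :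
    L g (y : K) = Real.log (nrm (algebraMap (𝓞 K) R y)) := by
  have hs : Ideal.span {y} ≠ ⊥ := by rwa [Ne, Ideal.span_singleton_eq_bot]
  have h1 := key g R hg (Ideal.span {y}) hs
  rw [Ideal.map_span, Set.image_singleton, ← nrm_eq] at h1
  unfold L
  rw [log_norm y hy]
  have h2 : ∑ t : TT K g, Real.log (Nm t.1.asIdeal) *
        ((WithZero.log (t.1.valuation K (y : K)) : ℤ) : ℝ) =
      -∑ t : TT K g, Real.log (Nm t.1.asIdeal) * (cnt t.1 (Ideal.span {y}) : ℝ) := by
    rw [← Finset.sum_neg_distrib]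
    refine Finset.sum_congr rfl fun t _ => ?_
    have h3 : t.1.valuation K (y : K) = t.1.intValuation y :=
      HeightOneSpectrum.valuation_of_algebraMap t.1 y
    rw [h3, HeightOneSpectrum.intValuation_if_neg t.1 hy, WithZero.log_exp]
    unfold cnt
    push_cast
    rw [mul_neg]
  rw [h2]
  linarith

omit [NumberField K] in
/-- the norm of the coordinates -/
lemma norm_em (w : InfinitePlace K) (z : K) :
    ‖(WithLp.toLp 2 fun i : Fin w.mult =>
        if (i : ℕ) = 0 then (w.embedding z).re else (w.embedding z).im : E w.mult)‖ = w z := by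
  rw [EuclideanSpace.norm_eq, ← InfinitePlace.norm_embedding_eq]
  by_cases hw : w.IsReal
  · have hm : w.mult = 1 := by unfold InfinitePlace.mult; rw [if_pos hw]
    have him : (w.embedding z).im = 0 := by
      have h1 := InfinitePlace.isReal_iff.mp hw
      have h2 := ComplexEmbedding.conjugate_coe_eq w.embedding z
      rw [ComplexEmbedding.isReal_iff.mp h1] at h2
      have h3 := congrArg Complex.im h2
      rw [Complex.conj_im] at h3
      linarith
    have h4 : ∀ (n : ℕ), n = 1 → ∑ i : Fin n, ‖(if (i : ℕ) = 0 then (w.embedding z).re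
        else (w.embedding z).im)‖ ^ 2 = (w.embedding z).re ^ 2 := by
      rintro n rfl
      simp
    show √(∑ i : Fin w.mult, ‖(if (i : ℕ) = 0 then (w.embedding z).re
        else (w.embedding z).im)‖ ^ 2) = _
    rw [h4 _ hm, Complex.norm_eq_sqrt_sq_add_sq, him]
    simp
  · have hm : w.mult = 2 := by unfold InfinitePlace.mult; rw [if_neg hw]
    have h4 : ∀ (n : ℕ), n = 2 → ∑ i : Fin n, ‖(if (i : ℕ) = 0 then (w.embedding z).re
        else (w.embedding z).im)‖ ^ 2 = (w.embedding z).re ^ 2 + (w.embedding z).im ^ 2 := by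
      rintro n rfl
      simp [Fin.sum_univ_two]
    show √(∑ i : Fin w.mult, ‖(if (i : ℕ) = 0 then (w.embedding z).re
        else (w.embedding z).im)‖ ^ 2) = _
    rw [h4 _ hm, Complex.norm_eq_sqrt_sq_add_sq]

end

end GEO2_

open GEO2_ in
theorem stmt_GEO2 (hI : Stmt_INST) : Stmt_GEO2 := by
  intro K _ _ g hg R _ _ _ inst
  obtain ⟨i1, i2, i3, i4, i5⟩ := hI K g R
  have away := inst.away
  have tower := inst.tower
  let fin : Fintype (TT K g) := @Fintype.ofFinite _ (finite_TT K hg)
  have hln : ∀ x : R, (dat K hg R).ln x = L g (algebraMap R K x) := by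
    intro x
    unfold Data.ln L
    congr 1
    refine Finset.sum_congr rfl fun w _ => ?_
    congr 1
    congr 1
    exact norm_em w (algebraMap R K x)
  refine ⟨?_, ?_⟩
  · rw [hln, map_zero]
    unfold L
    simp
  intro x hx
  refine ⟨nrm_pos hx, ?_⟩
  rw [hln]
  obtain ⟨n, a, hna⟩ := IsLocalization.Away.surj g x
  have hinj : Function.Injective (algebraMap R K) := IsFractionRing.injective R K
  have hxK : algebraMap R K x ≠ 0 := by
    rw [Ne, map_eq_zero_iff _ hinj]; exact hx
  have hgR : algebraMap (𝓞 K) R g ≠ 0 := (Loc_.unit_g g R).ne_zero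
  have ha : a ≠ 0 := by
    rintro rfl
    rw [map_zero] at hna
    rcases mul_eq_zero.mp hna with h | h
    · exact hx h
    · exact pow_ne_zero n hgR h
  have hgK : (g : K) ≠ 0 := by exact_mod_cast hg
  have hg0 : L g (g : K) = 0 := by
    rw [L_int g hg R g hg, nrm_eq_one.mpr (Loc_.unit_g g R)]
    simp
  have hgk : ∀ k : ℕ, L g ((g : K) ^ k) = 0 := by
    intro k
    induction k with
    | zero =>
      have h1 := L_mul g (z := (1 : K)) (z' := 1) one_ne_zero one_ne_zero
      rw [mul_one] at h1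
      rw [pow_zero]
      linarith
    | succ k ih => rw [pow_succ, L_mul g (pow_ne_zero k hgK) hgK, ih, hg0, add_zero]
  have hgn : L g ((g : K) ^ n) = 0 := hgk n
  have h1 : algebraMap R K x * (g : K) ^ n = (a : K) := by
    have h2 := congrArg (algebraMap R K) hna
    rw [map_mul, map_pow] at h2
    rw [← IsScalarTower.algebraMap_apply, ← IsScalarTower.algebraMap_apply] at h2
    exact h2
  have h2 : L g (algebraMap R K x) = L g (a : K) := by
    rw [← h1, L_mul g hxK (pow_ne_zero n hgK), hgn, add_zero]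
  rw [h2, L_int g hg R a ha, ← hna, nrm_mul, nrm_pow, nrm_eq_one.mpr (Loc_.unit_g g R), one_pow,
    mul_one]

end Pool.NS
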