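import Pool.Agent.Work.MP_b29d7f_ns_helper18.Loc

/-! Block MERR: from rings of integers to `S`-integers. -/

set_option autoImplicit false

open Finset NumberField IsDedekindDomain

namespace Pool.NS

open Pool.Agent.Work.MP_b29d7f_nt.Ded

namespace MERR_

lemma sum_image_le {α β : Type*} [DecidableEq β] (D : Finset α) (F : α → β) (h : β → ℝ)
    (hh : ∀ b, 0 ≤ h b) : ∑ b ∈ D.image F, h b ≤ ∑ a ∈ D, h (F a) := by
  classical
  rw [← Finset.sum_fiberwise_of_maps_to (t := D.image F) (g := F)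
    (fun a ha => Finset.mem_image_of_mem F ha)]
  apply Finset.sum_le_sum
  intro b hb
  rw [Finset.mem_image] at hb
  obtain ⟨a, ha, rfl⟩ := hb
  have h1 : ∑ i ∈ D.filter (fun i => F i = F a), h (F i) =
      ∑ i ∈ D.filter (fun i => F i = F a), h (F a) :=
    Finset.sum_congr rfl fun i hi => by rw [(Finset.mem_filter.mp hi).2]
  rw [h1]
  have h2 : a ∈ D.filter (fun i => F i = F a) := Finset.mem_filter.mpr ⟨ha, rfl⟩
  exact Finset.single_le_sum (f := fun _ => h (F a)) (fun _ _ => hh _) h2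

lemma geom (N X : ℕ) (hN : 2 ≤ N) : ∑ i ∈ Finset.Icc 1 X, 1 / ((N : ℝ) ^ i) ≤ 1 := by
  have hN' : (2 : ℝ) ≤ N := by exact_mod_cast hN
  have h : ∀ X : ℕ, ∑ i ∈ Finset.Icc 1 X, 1 / ((N : ℝ) ^ i) ≤ 1 - 1 / (N : ℝ) ^ X := by
    intro X
    induction X with
    | zero => simp
    | succ X ih =>
      rw [Finset.sum_Icc_succ_top (by omega)]
      have hp : (0 : ℝ) < (N : ℝ) ^ X := by positivity
      have h1 : 1 / (N : ℝ) ^ (X + 1) + 1 / (N : ℝ) ^ (X + 1) ≤ 1 / (N : ℝ) ^ X := by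
        rw [pow_succ, ← two_mul, mul_one_div, div_le_div_iff₀ (by positivity) hp]
        nlinarith
      linarith
  refine (h X).trans ?_
  have : (0 : ℝ) ≤ 1 / (N : ℝ) ^ X := by positivity
  linarith

end MERR_

open MERR_ in
theorem stmt_MERR (hF : Stmt_FACT) (hI : Stmt_INST) : Stmt_MERR := by
  classical
  intro K _ _ g R _ _ _ inst hfq
  obtain ⟨i1, i2, i3, i4, i5⟩ := hI K g R
  have away := inst.away
  have hg := inst.ne
  rintro ⟨C, hC⟩
  obtain ⟨F1, F2, F3, _⟩ := hF (𝓞 K)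
  obtain ⟨G1, G2, G3, _⟩ := hF R
  let fin : Fintype (TT K g) := @Fintype.ofFinite _ (finite_TT K hg)
  set f : Ideal R → Ideal (𝓞 K) := fun I => Ideal.under (𝓞 K) I with hf
  have finj : Function.Injective f := by
    intro I J hIJ
    rw [← Loc_.map_under g R I, ← Loc_.map_under g R J]
    exact congrArg _ hIJ
  -- prime powers
  have hpp : ∀ P : Ideal R, P.IsPrime → P ≠ ⊥ → ∀ i : ℕ, f (P ^ i) = (f P) ^ i ∧
      Nm (P ^ i) = Nm (f P ^ i) ∧ (f P).IsPrime ∧ f P ≠ ⊥ ∧ g ∉ f P := by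
    intro P hP hP0 i
    have h1 : (f P).IsPrime := Loc_.under_prime R hP
    have h2 : f P ≠ ⊥ := Loc_.under_ne_bot g R hP0
    have h3 : g ∉ f P := Loc_.notMem_under g R hP
    have h4 : (f P).map (algebraMap (𝓞 K) R) = P := Loc_.map_under g R P
    refine ⟨?_, ?_, h1, h2, h3⟩
    · have h5 := Loc_.under_map_pow g R hg h1 h3 i
      rw [Ideal.map_pow, h4] at h5
      exact h5
    · rw [Nm_pow, Nm_pow, ← Loc_.Nm_map g R h1 h2 h3, h4]
  have hkey : ∀ I : Ideal R, Lam I ≠ 0 → Lam (f I) = Lam I ∧ Nm (f I) = Nm I ∧ f I ≠ ⊥ ∧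
      ∀ q : Ideal (𝓞 K), q.IsPrime → ∀ j : ℕ, f I = q ^ j → g ∉ q := by
    intro I hI
    obtain ⟨P, hP, hP0, i, hi, rfl⟩ := G3 I hI
    obtain ⟨h1, h2, h3, h4, h5⟩ := hpp P hP hP0 i
    refine ⟨?_, ?_, ?_, ?_⟩
    · rw [h1, F2 _ h3 h4 i hi, G2 P hP hP0 i hi]
      have h6 := (hpp P hP hP0 1).2.1
      rw [pow_one, pow_one] at h6
      rw [h6]
    · rw [h1, h2]
    · rw [h1]; exact pow_ne_zero i h4
    · intro q hq j hj hgq
      apply h5
      have h6 : q ^ j ≤ f P := by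
        rw [← hj, h1]
        exact Ideal.pow_le_self (by omega)
      exact (h3.le_of_pow_le h6) hgq
  set T : ℕ → Finset (Ideal (𝓞 K)) := fun X => (ids (𝓞 K) X).filter fun J =>
    Lam J ≠ 0 ∧ ∀ q : Ideal (𝓞 K), q.IsPrime → ∀ j : ℕ, J = q ^ j → g ∉ q with hT
  have hsum : ∀ (X : ℕ) (F : Ideal R → ℝ) (G : Ideal (𝓞 K) → ℝ),
      (∀ I, Lam I = 0 → F I = 0) → (∀ I, Lam I ≠ 0 → F I = G (f I)) →
      ∑ I ∈ ids R X, F I = ∑ J ∈ T X, G J := by
    intro X F G h0 h1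
    have e1 : ∑ I ∈ ids R X, F I = ∑ I ∈ (ids R X).filter (fun I => Lam I ≠ 0), F I := by
      symm
      apply Finset.sum_filter_of_ne
      intro I _ hI h
      exact hI (h0 I h)
    rw [e1]
    refine Finset.sum_bij (fun I _ => f I) ?_ ?_ ?_ ?_
    · intro I hI
      rw [Finset.mem_filter, mem_ids] at hI
      obtain ⟨h2, h3, h4, h5⟩ := hkey I hI.2
      rw [hT, Finset.mem_filter, mem_ids]
      refine ⟨⟨h4, ?_⟩, ?_, h5⟩
      · rw [h3]; exact hI.1.2
      · rw [h2]; exact hI.2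
    · intro I _ J _ h
      exact finj h
    · intro J hJ
      rw [hT, Finset.mem_filter, mem_ids] at hJ
      obtain ⟨⟨h2, h3⟩, h4, h5⟩ := hJ
      obtain ⟨q, hq, hq0, j, hj, hJq⟩ := F3 J h4
      have hgq : g ∉ q := h5 q hq j hJq
      have h6 : f ((q ^ j).map (algebraMap (𝓞 K) R)) = q ^ j :=
        Loc_.under_map_pow g R hg hq hgq j
      have h7 : (q.map (algebraMap (𝓞 K) R)).IsPrime := Loc_.map_prime g R hq hgq
      have h8 : q.map (algebraMap (𝓞 K) R) ≠ ⊥ := Loc_.map_ne_bot g R hg hq0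
      have h9 : Lam ((q ^ j).map (algebraMap (𝓞 K) R)) = Lam J := by
        rw [Ideal.map_pow, G2 _ h7 h8 j hj, Loc_.Nm_map g R hq hq0 hgq, hJq, F2 q hq hq0 j hj]
      have h10 : Lam ((q ^ j).map (algebraMap (𝓞 K) R)) ≠ 0 := by rw [h9]; exact h4
      obtain ⟨k1, k2, k3, k4⟩ := hkey _ h10
      refine ⟨(q ^ j).map (algebraMap (𝓞 K) R), ?_, ?_⟩
      · rw [Finset.mem_filter, mem_ids]
        refine ⟨⟨?_, ?_⟩, h10⟩
        · exact Loc_.map_ne_bot g R hg (pow_ne_zero j hq0)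
        · rw [← k2, h6, ← hJq]; exact h3
      · show f _ = J
        rw [h6, hJq]
    · intro I hI
      rw [Finset.mem_filter] at hI
      exact h1 I hI.2
  have hTsub : ∀ X, T X ⊆ ids (𝓞 K) X := fun X => Finset.filter_subset _ _
  set c : ℝ := ∑ t : TT K g, Real.log (Nm t.1.asIdeal) with hc
  have hNm2 : ∀ t : TT K g, 2 ≤ Nm t.1.asIdeal := fun t => one_lt_Nm t.1.isPrime t.1.ne_bot
  have hlog0 : ∀ t : TT K g, 0 ≤ Real.log (Nm t.1.asIdeal) := fun t =>
    Real.log_natCast_nonneg _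
  have hc0 : 0 ≤ c := Finset.sum_nonneg fun t _ => hlog0 t
  have hmiss : ∀ X, ∑ J ∈ ids (𝓞 K) X \ T X, Lam J / (Nm J : ℝ) ≤ c := by
    intro X
    have hnn : ∀ J : Ideal (𝓞 K), 0 ≤ Lam J / (Nm J : ℝ) := fun J =>
      div_nonneg (F1 J) (Nat.cast_nonneg _)
    set D : Finset (TT K g × ℕ) := Finset.univ ×ˢ Finset.Icc 1 X with hD
    set Fm : TT K g × ℕ → Ideal (𝓞 K) := fun d => d.1.1.asIdeal ^ d.2 with hFm
    have e1 : ∑ J ∈ ids (𝓞 K) X \ T X, Lam J / (Nm J : ℝ) ≤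
        ∑ J ∈ D.image Fm, Lam J / (Nm J : ℝ) := by
      have e2 : ∑ J ∈ ids (𝓞 K) X \ T X, Lam J / (Nm J : ℝ) =
          ∑ J ∈ (ids (𝓞 K) X \ T X).filter (fun J => Lam J ≠ 0), Lam J / (Nm J : ℝ) := by
        symm
        apply Finset.sum_filter_of_ne
        intro J _ hJ h
        rw [h, zero_div] at hJ
        exact hJ rfl
      rw [e2]
      apply Finset.sum_le_sum_of_subset_of_nonneg
      · intro J hJ
        rw [Finset.mem_filter, Finset.mem_sdiff, hT, Finset.mem_filter, mem_ids] at hJ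
        obtain ⟨⟨⟨h1, h2⟩, h3⟩, h4⟩ := hJ
        obtain ⟨q, hq, hq0, j, hj, hJq⟩ := F3 J h4
        have hgq : g ∈ q := by
          by_contra hgq
          apply h3
          refine ⟨⟨h1, h2⟩, h4, ?_⟩
          intro q' hq' j' hJq' hgq'
          have h5 : q' ^ j' ≤ q := by
            rw [← hJq', hJq]
            exact Ideal.pow_le_self (by omega)
          exact hgq ((hq.le_of_pow_le h5) hgq')
        rw [Finset.mem_image]
        refine ⟨(⟨⟨q, hq, hq0⟩, hgq⟩, j), ?_, ?_⟩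
        · rw [hD, Finset.mem_product, Finset.mem_Icc]
          refine ⟨Finset.mem_univ _, hj, ?_⟩
          rw [hJq, Nm_pow] at h2
          exact (Nat.lt_pow_self (one_lt_Nm hq hq0)).le.trans h2
        · rw [hFm, hJq]
      · intro J _ _
        exact hnn J
    refine e1.trans ((sum_image_le D Fm _ hnn).trans ?_)
    rw [hD, Finset.sum_product, hc]
    apply Finset.sum_le_sum
    intro t _
    have h1 : ∑ i ∈ Finset.Icc 1 X, Lam (Fm (t, i)) / (Nm (Fm (t, i)) : ℝ) =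
        Real.log (Nm t.1.asIdeal) * ∑ i ∈ Finset.Icc 1 X, 1 / ((Nm t.1.asIdeal : ℝ) ^ i) := by
      rw [Finset.mul_sum]
      refine Finset.sum_congr rfl fun i hi => ?_
      rw [Finset.mem_Icc] at hi
      rw [hFm]
      simp only
      rw [F2 _ t.1.isPrime t.1.ne_bot i hi.1, Nm_pow, Nat.cast_pow, mul_one_div]
    rw [h1]
    have h2 := geom (Nm t.1.asIdeal) X (hNm2 t)
    exact mul_le_of_le_one_right (hlog0 t) h2
  refine ⟨C + c, ?_, ?_⟩
  · intro X
    rw [hsum X Lam Lam (fun I h => h) (fun I h => (hkey I h).1.symm)]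
    have h1 : ∑ J ∈ T X, Lam J ≤ ∑ J ∈ ids (𝓞 K) X, Lam J :=
      Finset.sum_le_sum_of_subset_of_nonneg (hTsub X) fun J _ _ => F1 J
    have h2 := hC.psi X
    have h3 : 0 ≤ c * X := mul_nonneg hc0 (Nat.cast_nonneg _)
    rw [add_mul]
    linarith
  · intro X hX
    rw [hsum X (fun I => Lam I / (Nm I : ℝ)) (fun I => Lam I / (Nm I : ℝ))
      (fun I h => by rw [h, zero_div])
      (fun I h => by
        obtain ⟨h1, h2, _⟩ := hkey I h
        rw [h1, h2])]
    have h1 := Finset.sum_sdiff (hTsub X) (f := fun J => Lam J / (Nm J : ℝ))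
    have h2 := hC.mer X hX
    have h3 := hmiss X
    have h4 : 0 ≤ ∑ J ∈ ids (𝓞 K) X \ T X, Lam J / (Nm J : ℝ) :=
      Finset.sum_nonneg fun J _ => div_nonneg (F1 J) (Nat.cast_nonneg _)
    rw [abs_le] at h2 ⊢
    constructor <;> linarith [h2.1, h2.2]

end Pool.NS
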