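import Pool.Agent.Work.MP_b29d7f_ns_helper18.GEO2

/-! Block MK2: the logarithms of the norms of the elements of a box. -/

set_option autoImplicit false

open Finset NumberField IsDedekindDomain

namespace Pool.NS

open Pool.Agent.Work.MP_b29d7f_nt.Ded

namespace MK2_

lemma le_count (y : ℝ) (N : ℕ) (h : y ≤ N) :
    y ≤ ∑ k ∈ Finset.range N, if (k : ℝ) < y then (1 : ℝ) else 0 := by
  induction N with
  | zero => simpa using h
  | succ N ih =>
    rw [Finset.sum_range_succ]
    rcases le_or_gt y N with h1 | h1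
    · have h2 := ih h1
      have h3 : (0 : ℝ) ≤ if (N : ℝ) < y then (1 : ℝ) else 0 := by split_ifs <;> norm_num
      linarith
    · have h2 : ∑ k ∈ Finset.range N, (if (k : ℝ) < y then (1 : ℝ) else 0) = N := by
        have h3 : ∑ k ∈ Finset.range N, (if (k : ℝ) < y then (1 : ℝ) else 0) =
            ∑ k ∈ Finset.range N, (1 : ℝ) := by
          refine Finset.sum_congr rfl fun k hk => ?_
          rw [Finset.mem_range] at hk
          have : (k : ℝ) < N := by exact_mod_cast hk
          rw [if_pos (this.trans h1)]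
        rw [h3]; simp
      rw [h2, if_pos h1]
      push_cast at h
      exact h

lemma geom2 (N : ℕ) : ∑ k ∈ Finset.range N, 1 / (2 : ℝ) ^ k ≤ 2 := by
  have h : ∀ N : ℕ, ∑ k ∈ Finset.range N, 1 / (2 : ℝ) ^ k ≤ 2 - 1 / (2 : ℝ) ^ N * 2 := by
    intro N
    induction N with
    | zero => simp
    | succ N ih =>
      rw [Finset.sum_range_succ]
      have h1 : 1 / (2 : ℝ) ^ (N + 1) * 2 = 1 / (2 : ℝ) ^ N := by
        rw [pow_succ]; field_simp
      rw [h1]
      linarith
  refine (h N).trans ?_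
  have : (0 : ℝ) ≤ 1 / (2 : ℝ) ^ N * 2 := by positivity
  linarith

variable {K : Type} [Field K] [NumberField K]

open scoped Classical in
lemma prod_rho (w : InfinitePlace K) (m : ℝ) (hm : 0 < m) (k : ℕ) :
    ∏ w' : InfinitePlace K, (if w' = w then m / 2 ^ k else m) ^ w'.mult ≤
      m ^ Module.finrank ℚ K / 2 ^ k := by
  have h1 : ∏ w' : InfinitePlace K, (if w' = w then m / 2 ^ k else m) ^ w'.mult =
      ∏ w' : InfinitePlace K, (m ^ w'.mult * (if w' = w then (1 / (2 : ℝ) ^ k) ^ w.mult else 1)) := by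
    refine Finset.prod_congr rfl fun w' _ => ?_
    split_ifs with h
    · rw [h, ← mul_pow, mul_one_div]
    · rw [mul_one]
  rw [h1, Finset.prod_mul_distrib, Finset.prod_pow_eq_pow_sum, InfinitePlace.sum_mult_eq,
    Finset.prod_ite_eq' Finset.univ w, if_pos (Finset.mem_univ _)]
  rw [div_eq_mul_one_div (m ^ Module.finrank ℚ K)]
  apply mul_le_mul_of_nonneg_left _ (by positivity)
  apply pow_le_of_le_one (by positivity)
  · rw [div_le_one (by positivity)]
    exact one_le_pow₀ (by norm_num)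
  · unfold InfinitePlace.mult
    split_ifs <;> norm_num

open scoped Classical in
lemma perPlace {C : ℝ} (hC0 : 0 ≤ C)
    (hC : ∀ ρ : InfinitePlace K → ℝ, (∀ w, 0 < ρ w) →
      {x : 𝓞 K | ∀ w : InfinitePlace K, w (x : K) ≤ ρ w}.Finite ∧
      (({x : 𝓞 K | ∀ w : InfinitePlace K, w (x : K) ≤ ρ w}.ncard : ℕ) : ℝ)
        ≤ C * (1 + ∏ w, ρ w ^ w.mult)) (m : ℝ) (hm : 1 ≤ m) (B : Finset (𝓞 K))
    (hB : (B : Set (𝓞 K)) = bx ⊤ m) (w : InfinitePlace K)
    (hlog : ∀ x ∈ B.erase 0, Real.log (m / w (x : K)) ≤ Real.log (m ^ Module.finrank ℚ K)) :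
    ∑ x ∈ B.erase 0, Real.log (m / w (x : K)) ≤ 4 * C * m ^ Module.finrank ℚ K := by
  set M : ℝ := m ^ Module.finrank ℚ K with hM
  have hM1 : 1 ≤ M := one_le_pow₀ hm
  set N : ℕ := ⌈Real.log M⌉₊ with hN
  have hN1 : Real.log M ≤ N := Nat.le_ceil _
  have hlog0 : 0 ≤ Real.log M := Real.log_nonneg hM1
  have hN2 : (N : ℝ) ≤ 2 * M := by
    have h1 := Nat.ceil_lt_add_one hlog0
    have h2 := Real.log_le_sub_one_of_pos (by linarith : 0 < M)
    linarith
  have hcard : ∀ k : ℕ, (((B.erase 0).filter fun x : 𝓞 K => (k : ℝ) < Real.log (m / w (x : K))).card : ℝ)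
      ≤ C * (1 + M / 2 ^ k) := by
    intro k
    have hρ : ∀ w' : InfinitePlace K, 0 < (if w' = w then m / 2 ^ k else m) := by
      intro w'
      split_ifs <;> positivity
    obtain ⟨h1, h2⟩ := hC (fun w' => if w' = w then m / 2 ^ k else m) hρ
    have h3 : ((((B.erase 0).filter fun x : 𝓞 K => (k : ℝ) < Real.log (m / w (x : K)) : Finset (𝓞 K)) :
        Set (𝓞 K)).ncard) ≤
        {x : 𝓞 K | ∀ w' : InfinitePlace K, w' (x : K) ≤ (if w' = w then m / 2 ^ k else m)}.ncard := by
      apply Set.ncard_le_ncard _ h1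
      intro x hx
      rw [Finset.mem_coe, Finset.mem_filter, Finset.mem_erase] at hx
      obtain ⟨⟨hx0, hxB⟩, hxk⟩ := hx
      have hxB' : x ∈ bx ⊤ m := by rw [← hB]; exact hxB
      intro w'
      split_ifs with h
      · rw [h]
        have hw : 0 < w (x : K) := by
          rw [InfinitePlace.pos_iff]
          exact_mod_cast hx0
        have h4 : (2 : ℝ) ^ k ≤ m / w (x : K) := by
          have h5 : (k : ℝ) * Real.log 2 ≤ Real.log (m / w (x : K)) := by
            have h6 : Real.log 2 ≤ 1 := by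
              have := Real.log_two_lt_d9
              linarith
            have h7 : (k : ℝ) * Real.log 2 ≤ k * 1 :=
              mul_le_mul_of_nonneg_left h6 (Nat.cast_nonneg k)
            linarith
          rw [← Real.log_pow] at h5
          exact (Real.log_le_log_iff (by positivity) (by positivity)).mp h5
        rw [le_div_iff₀ hw] at h4
        rw [le_div_iff₀ (by positivity)]
        linarith
      · exact hxB'.2 w'
    rw [Set.ncard_coe_finset] at h3
    have h4 : (((B.erase 0).filter fun x : 𝓞 K => (k : ℝ) < Real.log (m / w (x : K))).card : ℝ) ≤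
        C * (1 + ∏ w' : InfinitePlace K, (if w' = w then m / 2 ^ k else m) ^ w'.mult) := by
      refine le_trans ?_ h2
      exact_mod_cast h3
    refine h4.trans (mul_le_mul_of_nonneg_left ?_ hC0)
    have h5 := prod_rho w m (by linarith) k
    linarith
  calc ∑ x ∈ B.erase 0, Real.log (m / w (x : K))
      ≤ ∑ x ∈ B.erase 0, ∑ k ∈ Finset.range N,
          (if (k : ℝ) < Real.log (m / w (x : K)) then (1 : ℝ) else 0) :=
        Finset.sum_le_sum fun x hx => le_count _ N ((hlog x hx).trans hN1)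
    _ = ∑ k ∈ Finset.range N, ∑ x ∈ B.erase 0,
          (if (k : ℝ) < Real.log (m / w (x : K)) then (1 : ℝ) else 0) := Finset.sum_comm
    _ = ∑ k ∈ Finset.range N,
          (((B.erase 0).filter fun x : 𝓞 K => (k : ℝ) < Real.log (m / w (x : K))).card : ℝ) := by
        refine Finset.sum_congr rfl fun k _ => ?_
        rw [Finset.sum_boole]
    _ ≤ ∑ k ∈ Finset.range N, C * (1 + M / 2 ^ k) := Finset.sum_le_sum fun k _ => hcard k
    _ = C * N + C * M * ∑ k ∈ Finset.range N, 1 / (2 : ℝ) ^ k := by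
        have e1 : ∀ k ∈ Finset.range N, C * (1 + M / 2 ^ k) = C + C * M * (1 / (2 : ℝ) ^ k) := by
          intro k _
          ring
        rw [Finset.sum_congr rfl e1, Finset.sum_add_distrib, Finset.sum_const, Finset.card_range,
          nsmul_eq_mul, ← Finset.mul_sum]
        ring
    _ ≤ C * (2 * M) + C * M * 2 := by
        apply add_le_add
        · exact mul_le_mul_of_nonneg_left hN2 hC0
        · exact mul_le_mul_of_nonneg_left (geom2 N) (by positivity)
    _ = 4 * C * M := by ring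

end MK2_

open MK2_ in
theorem stmt_MK2 (_h1 : Stmt_MK1) (hC : Stmt_MKC) : Stmt_MK2 := by
  classical
  intro K _ _
  obtain ⟨C, hC0, hC⟩ := hC K
  refine ⟨4 * C * Module.finrank ℚ K + 1, fun m hm B hB => ?_⟩
  set M : ℝ := m ^ Module.finrank ℚ K with hM
  have hM1 : 1 ≤ M := one_le_pow₀ hm
  have h0B : (0 : 𝓞 K) ∈ B := by
    rw [← Finset.mem_coe, hB]
    refine ⟨Submodule.mem_top, fun w => ?_⟩
    simp; linarith
  have hmem : ∀ x ∈ B.erase 0, x ≠ 0 ∧ ∀ w : InfinitePlace K, 0 < w (x : K) ∧ w (x : K) ≤ m := by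
    intro x hx
    rw [Finset.mem_erase] at hx
    refine ⟨hx.1, fun w => ⟨?_, ?_⟩⟩
    · rw [InfinitePlace.pos_iff]
      exact_mod_cast hx.1
    · have h : x ∈ bx ⊤ m := by rw [← hB]; exact hx.2
      exact h.2 w
  have hid : ∀ x ∈ B.erase 0, Real.log M - Real.log (nrm x) =
      ∑ w : InfinitePlace K, (w.mult : ℝ) * Real.log (m / w (x : K)) := by
    intro x hx
    obtain ⟨hx0, hxw⟩ := hmem x hx
    rw [nrm_eq, ← GEO2_.log_norm x hx0, hM, Real.log_pow, ← InfinitePlace.sum_mult_eq]
    push_cast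
    rw [Finset.sum_mul, ← Finset.sum_sub_distrib]
    refine Finset.sum_congr rfl fun w _ => ?_
    rw [Real.log_div (by linarith) (hxw w).1.ne']
    ring
  have hterm : ∀ x ∈ B.erase 0, ∀ w : InfinitePlace K, 0 ≤ Real.log (m / w (x : K)) := by
    intro x hx w
    obtain ⟨hx0, hxw⟩ := hmem x hx
    apply Real.log_nonneg
    rw [le_div_iff₀ (hxw w).1, one_mul]
    exact (hxw w).2
  have hmult : ∀ w : InfinitePlace K, (1 : ℝ) ≤ w.mult := by
    intro w
    unfold InfinitePlace.mult
    split_ifs <;> norm_num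
  have hlog : ∀ w : InfinitePlace K, ∀ x ∈ B.erase 0,
      Real.log (m / w (x : K)) ≤ Real.log (m ^ Module.finrank ℚ K) := by
    intro w x hx
    have h1 := hid x hx
    have h2 : 0 ≤ Real.log (nrm x) := Real.log_natCast_nonneg _
    have h3 : (w.mult : ℝ) * Real.log (m / w (x : K)) ≤
        ∑ w : InfinitePlace K, (w.mult : ℝ) * Real.log (m / w (x : K)) :=
      Finset.single_le_sum (f := fun w : InfinitePlace K =>
        (w.mult : ℝ) * Real.log (m / w (x : K)))
        (fun w _ => mul_nonneg (Nat.cast_nonneg _) (hterm x hx w)) (Finset.mem_univ w)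
    have h4 : Real.log (m / w (x : K)) ≤ (w.mult : ℝ) * Real.log (m / w (x : K)) :=
      le_mul_of_one_le_left (hterm x hx w) (hmult w)
    rw [← hM]
    linarith
  have hcard : (B.card : ℝ) = (B.erase 0).card + 1 := by
    rw [← Finset.card_erase_add_one h0B]; push_cast; ring
  have hS : ∑ x ∈ B.erase 0, Real.log (nrm x) - (B.card : ℝ) * Real.log M =
      -(∑ w : InfinitePlace K, (w.mult : ℝ) * ∑ x ∈ B.erase 0, Real.log (m / w (x : K))) -
        Real.log M := by
    have h1 : ∑ w : InfinitePlace K, (w.mult : ℝ) * ∑ x ∈ B.erase 0, Real.log (m / w (x : K)) =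
        ∑ x ∈ B.erase 0, (Real.log M - Real.log (nrm x)) := by
      rw [Finset.sum_congr rfl hid, Finset.sum_comm]
      refine Finset.sum_congr rfl fun w _ => ?_
      rw [Finset.mul_sum]
    rw [h1, Finset.sum_sub_distrib, Finset.sum_const, nsmul_eq_mul, hcard]
    ring
  have hA : ∑ w : InfinitePlace K, (w.mult : ℝ) * ∑ x ∈ B.erase 0, Real.log (m / w (x : K)) ≤
      4 * C * Module.finrank ℚ K * M := by
    calc ∑ w : InfinitePlace K, (w.mult : ℝ) * ∑ x ∈ B.erase 0, Real.log (m / w (x : K))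
        ≤ ∑ w : InfinitePlace K, (w.mult : ℝ) * (4 * C * M) :=
          Finset.sum_le_sum fun w _ => mul_le_mul_of_nonneg_left
            (perPlace hC0 hC m hm B hB w (hlog w)) (Nat.cast_nonneg _)
      _ = 4 * C * Module.finrank ℚ K * M := by
          rw [← Finset.sum_mul, ← InfinitePlace.sum_mult_eq]
          push_cast
          ring
  have hA0 : 0 ≤ ∑ w : InfinitePlace K, (w.mult : ℝ) *
      ∑ x ∈ B.erase 0, Real.log (m / w (x : K)) :=
    Finset.sum_nonneg fun w _ => mul_nonneg (Nat.cast_nonneg _)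
      (Finset.sum_nonneg fun x hx => hterm x hx w)
  have hM2 : Real.log M ≤ M := by
    have := Real.log_le_sub_one_of_pos (by linarith : 0 < M)
    linarith
  have hM3 : 0 ≤ Real.log M := Real.log_nonneg hM1
  rw [hS, abs_le]
  constructor
  · nlinarith
  · nlinarith

end Pool.NS
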