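import Pool.Agent.Work.MP_b29d7f_ns.Interface3

/-! Localisations of Dedekind domains away from one element: prime ideals and norms. -/

set_option autoImplicit false
set_option linter.unusedSectionVars false

open NumberField IsDedekindDomain

namespace Pool.NS.Loc_

open Pool.Agent.Work.MP_b29d7f_nt.Ded

section

variable {A : Type} [CommRing A] [IsDedekindDomain A] (g : A) (R : Type) [CommRing R]
  [Algebra A R] [IsLocalization.Away g R]

lemma disj {p : Ideal A} (hp : p.IsPrime) (hg : g ∉ p) :
    Disjoint (Submonoid.powers g : Set A) (p : Set A) := by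
  rw [Set.disjoint_left]
  rintro _ ⟨n, rfl⟩ h
  exact hg (hp.mem_of_pow_mem n h)

lemma map_prime {p : Ideal A} (hp : p.IsPrime) (hg : g ∉ p) :
    (p.map (algebraMap A R)).IsPrime :=
  IsLocalization.isPrime_of_isPrime_disjoint (Submonoid.powers g) R p hp (disj g hp hg)

lemma under_map {p : Ideal A} (hp : p.IsPrime) (hg : g ∉ p) :
    Ideal.under A (p.map (algebraMap A R)) = p :=
  IsLocalization.under_map_of_isPrime_disjoint (Submonoid.powers g) R hp (disj g hp hg)

include g in
lemma map_under (J : Ideal R) : (Ideal.under A J).map (algebraMap A R) = J :=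
  IsLocalization.map_under (Submonoid.powers g) R J

lemma unit_g : IsUnit (algebraMap A R g) := IsLocalization.Away.algebraMap_isUnit g

lemma map_eq_top {I : Ideal A} (hg : g ∈ I) : I.map (algebraMap A R) = ⊤ :=
  Ideal.eq_top_of_isUnit_mem _ (Ideal.mem_map_of_mem _ hg) (unit_g g R)

lemma under_prime {P : Ideal R} (hP : P.IsPrime) : (Ideal.under A P).IsPrime := by
  exact hP.comap (algebraMap A R)

lemma notMem_under {P : Ideal R} (hP : P.IsPrime) : g ∉ Ideal.under A P := by
  intro h
  exact hP.ne_top (Ideal.eq_top_of_isUnit_mem _ h (unit_g g R))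

lemma inj (hg0 : g ≠ 0) : Function.Injective (algebraMap A R) :=
  IsLocalization.injective R (M := Submonoid.powers g) (by
    rintro _ ⟨n, rfl⟩
    exact mem_nonZeroDivisors_of_ne_zero (pow_ne_zero n hg0))

lemma map_ne_bot (hg0 : g ≠ 0) {I : Ideal A} (hI : I ≠ ⊥) : I.map (algebraMap A R) ≠ ⊥ := by
  rw [Ne, Ideal.map_eq_bot_iff_of_injective (inj g R hg0)]
  exact hI

include g in
lemma under_ne_bot {J : Ideal R} (hJ : J ≠ ⊥) : Ideal.under A J ≠ ⊥ := by
  intro h
  apply hJ
  rw [← map_under g R J, h, Ideal.map_bot]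

/-- norms of primes -/
lemma Nm_map {p : Ideal A} (hp : p.IsPrime) (hp0 : p ≠ ⊥) (hg : g ∉ p) :
    Nm (p.map (algebraMap A R)) = Nm p := by
  have hmax : p.IsMaximal := hp.isMaximal hp0
  obtain ⟨y, i, hi, hyi⟩ := hmax.exists_inv hg
  set f := Ideal.quotientMap (p.map (algebraMap A R)) (algebraMap A R) Ideal.le_comap_map with hf
  have hfi : Function.Injective f := by
    apply Ideal.quotientMap_injective'
    have := under_map g R hp hg
    exact this.le
  have hfs : Function.Surjective f := by
    intro r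
    obtain ⟨r, rfl⟩ := Ideal.Quotient.mk_surjective r
    obtain ⟨n, a, hna⟩ := IsLocalization.Away.surj g r
    refine ⟨Ideal.Quotient.mk p (a * y ^ n), ?_⟩
    rw [hf, Ideal.quotientMap_mk, Ideal.Quotient.eq, map_mul, ← hna, map_pow]
    have h1 : r * algebraMap A R g ^ n * algebraMap A R y ^ n - r =
        r * algebraMap A R ((y * g) ^ n - 1) := by
      rw [map_sub, map_pow, map_mul, map_one]; ring
    rw [h1]
    apply Ideal.mul_mem_left
    apply Ideal.mem_map_of_mem
    rw [← Ideal.Quotient.mk_eq_mk_iff_sub_mem, map_pow, map_one]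
    have h2 : Ideal.Quotient.mk p (y * g) = 1 := by
      have h3 : Ideal.Quotient.mk p (y * g + i) = 1 := by rw [hyi, map_one]
      rw [map_add, Ideal.Quotient.eq_zero_iff_mem.mpr hi, add_zero] at h3
      exact h3
    rw [h2, one_pow]
  unfold Nm
  exact (Nat.card_congr (Equiv.ofBijective f ⟨hfi, hfs⟩)).symm

/-- powers -/
lemma under_map_pow (hg0 : g ≠ 0) {p : Ideal A} (hp : p.IsPrime) (hg : g ∉ p) (i : ℕ) :
    Ideal.under A ((p ^ i).map (algebraMap A R)) = p ^ i := by
  apply le_antisymm
  · intro a ha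
    have ha' : algebraMap A R a ∈ (p ^ i).map (algebraMap A R) := ha
    rw [IsLocalization.mem_map_algebraMap_iff (Submonoid.powers g) R] at ha'
    obtain ⟨⟨b, s⟩, hbs⟩ := ha'
    obtain ⟨n, hn⟩ := s.2
    have h1 : algebraMap A R (g ^ n * a) = algebraMap A R b := by
      rw [← hbs, map_mul]
      simp only
      rw [← hn, mul_comm]
    have h2 := inj g R hg0 h1
    have h3 : g ^ n * a ∈ p ^ i := by rw [h2]; exact b.2
    have := hp
    rcases Ideal.IsPrime.mul_mem_pow p h3 with h | h
    · exact absurd (hp.mem_of_pow_mem n h) hg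
    · exact h
  · exact Ideal.le_comap_map

end

end Pool.NS.Loc_
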